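import Mathlib

universe u

namespace Pool.Agent.Results.MP_e0d2b2_an.Main

open Metric Complex
open Finset


section
variable {A : Type*} [NormedRing A] [NormedAlgebra ℂ A] [CompleteSpace A]

omit [CompleteSpace A] in
lemma isUnit_one_sub (a : A) (hs : spectrum ℂ a ⊆ ball (0:ℂ) 1) (w : ℂ) (hw : ‖w‖ ≤ 1) :
    IsUnit (1 - w • a) := by
  rcases eq_or_ne w 0 with rfl | hw0
  · simp
  · have h1 : w⁻¹ ∉ spectrum ℂ a := by
      intro h
      have := hs h
      rw [mem_ball_zero_iff, norm_inv] at this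
      have h2 : 0 < ‖w‖ := norm_pos_iff.2 hw0
      have := (inv_lt_one₀ h2).1 this
      linarith
    rw [spectrum.notMem_iff] at h1
    have h2 : (1 - w • a) = w • (algebraMap ℂ A w⁻¹ - a) := by
      rw [smul_sub, Algebra.algebraMap_eq_smul_one, smul_smul, mul_inv_cancel₀ hw0, one_smul]
    rw [h2, Algebra.smul_def]
    exact ((isUnit_iff_ne_zero.2 hw0).map (algebraMap ℂ A)).mul h1

omit [CompleteSpace A] in
lemma inverse_eq (a : A) (w : ℂ) (hw : w ≠ 0) :
    Ring.inverse (1 - w • a) = w⁻¹ • resolvent a w⁻¹ := by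
  have h2 : (1 - w • a) = w • (algebraMap ℂ A w⁻¹ - a) := by
    rw [smul_sub, Algebra.algebraMap_eq_smul_one, smul_smul, mul_inv_cancel₀ hw, one_smul]
  have h3 : Ring.inverse (algebraMap ℂ A w) = algebraMap ℂ A w⁻¹ := by
    have h4 : algebraMap ℂ A w * algebraMap ℂ A w⁻¹ = 1 := by
      rw [← map_mul, mul_inv_cancel₀ hw, map_one]
    have h5 : IsUnit (algebraMap ℂ A w) := (isUnit_iff_ne_zero.2 hw).map (algebraMap ℂ A)
    calc Ring.inverse (algebraMap ℂ A w) = Ring.inverse (algebraMap ℂ A w) * (algebraMap ℂ A w * algebraMap ℂ A w⁻¹) := by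
          rw [h4, mul_one]
      _ = algebraMap ℂ A w⁻¹ := by rw [← mul_assoc, Ring.inverse_mul_cancel _ h5, one_mul]
  have hc : Commute (algebraMap ℂ A w) (algebraMap ℂ A w⁻¹ - a) := Algebra.commutes w _
  rw [h2, resolvent, Algebra.smul_def, Ring.mul_inverse_rev' hc, h3, Algebra.smul_def,
    ← Algebra.commutes]

lemma pow_bound (a : A) (M : ℝ) (hs : spectrum ℂ a ⊆ ball (0:ℂ) 1)
    (hM : ∀ z : ℂ, ‖z‖ = 1 → ‖resolvent a z‖ ≤ M) (n j : ℕ) :
    ((j + n).choose n : ℝ) * ‖a ^ j‖ ≤ M ^ (n + 1) := by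
  have hM0 : 0 ≤ M := le_trans (norm_nonneg _) (hM 1 (by simp))
  set f : ℂ → A := fun w => (Ring.inverse (1 - w • a)) ^ (n + 1) with hf
  have hdiff : ∀ w : ℂ, ‖w‖ ≤ 1 → DifferentiableAt ℂ f w := by
    intro w hw
    have H₁ : Differentiable ℂ fun w : ℂ => 1 - w • a := (differentiable_id.smul_const a).const_sub 1
    have h3 := DifferentiableAt.comp (𝕜 := ℂ) w (differentiableAt_inverse (isUnit_one_sub a hs w hw)) H₁.differentiableAt
    have h2 : DifferentiableAt ℂ (fun w : ℂ => Ring.inverse (1 - w • a)) w := h3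
    exact h2.pow (n+1)
  have hdc : DiffContOnCl ℂ f (ball 0 1) := by
    apply DifferentiableOn.diffContOnCl
    intro w hw
    rw [closure_ball _ (by norm_num)] at hw
    exact (hdiff w (by simpa using hw)).differentiableWithinAt
  have hps : HasFPowerSeriesAt f (cauchyPowerSeries f 0 1) 0 := by
    have := hdc.hasFPowerSeriesOnBall (R := 1) (by norm_num)
    exact this.hasFPowerSeriesAt
  set p : FormalMultilinearSeries ℂ ℂ A := fun i => ContinuousMultilinearMap.mkPiRing ℂ (Fin i) (((i + n).choose n : A) * a ^ i) with hp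
  have hpc : ∀ i, p.coeff i = ((i + n).choose n : A) * a ^ i := by
    intro i
    simp [FormalMultilinearSeries.coeff, hp]
  have hps2 : HasFPowerSeriesAt f p 0 := by
    rw [hasFPowerSeriesAt_iff]
    have hev : ∀ᶠ z : ℂ in nhds 0, ‖z • a‖ < 1 := by
      have hc : Continuous (fun z : ℂ => ‖z • a‖) := by fun_prop
      have := hc.tendsto 0
      simp only [zero_smul, norm_zero] at this
      exact this.eventually_lt_const (by norm_num)
    filter_upwards [hev] with z hz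
    have h := hasSum_choose_mul_geometric_of_norm_lt_one' n hz
    simp only [zero_add, hf]
    have h5 : (fun i => z ^ i • p.coeff i) = (fun i => ((i + n).choose n : A) * (z • a) ^ i) := by
      ext i
      rw [hpc, smul_pow, mul_smul_comm]
    rw [h5]
    exact h
  have heq := hps.eq_formalMultilinearSeries hps2
  have hco : ‖p.coeff j‖ ≤ M ^ (n+1) := by
    have h1 : p.coeff j = (cauchyPowerSeries f 0 1).coeff j := by rw [heq]
    rw [h1]
    have h2 : ‖(cauchyPowerSeries f 0 1).coeff j‖ ≤ ‖cauchyPowerSeries f 0 1 j‖ := by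
      rw [FormalMultilinearSeries.norm_apply_eq_norm_coef]
    refine h2.trans ((norm_cauchyPowerSeries_le f 0 1 j).trans ?_)
    have h3 : ∀ θ : ℝ, ‖f (circleMap 0 1 θ)‖ ≤ M ^ (n+1) := by
      intro θ
      have hne : circleMap 0 1 θ ≠ 0 := circleMap_ne_center (by norm_num)
      have hnorm : ‖circleMap 0 1 θ‖ = 1 := by simp
      simp only [hf]
      rw [inverse_eq a _ hne]
      calc ‖((circleMap 0 1 θ)⁻¹ • resolvent a (circleMap 0 1 θ)⁻¹) ^ (n+1)‖
          ≤ ‖(circleMap 0 1 θ)⁻¹ • resolvent a (circleMap 0 1 θ)⁻¹‖ ^ (n+1) := norm_pow_le' _ (by omega)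
        _ ≤ M ^ (n+1) := by
            apply pow_le_pow_left₀ (norm_nonneg _)
            rw [norm_smul, norm_inv, hnorm, inv_one, one_mul]
            exact hM _ (by rw [norm_inv, hnorm, inv_one])
    have h4 : ∫ θ in (0:ℝ)..2 * Real.pi, ‖f (circleMap 0 1 θ)‖ ≤ ∫ θ in (0:ℝ)..2 * Real.pi, M ^ (n+1) := by
      apply intervalIntegral.integral_mono_on (by positivity)
      · have hcont : ContinuousOn (fun θ : ℝ => ‖f (circleMap 0 1 θ)‖) (Set.uIcc 0 (2 * Real.pi)) := by
          apply ContinuousOn.norm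
          intro θ _
          apply ContinuousAt.continuousWithinAt
          have h5 : ContinuousAt f (circleMap 0 1 θ) := (hdiff _ (by simp)).continuousAt
          exact ContinuousAt.comp (g := f) h5 (continuous_circleMap 0 1).continuousAt
        exact hcont.intervalIntegrable
      · simp
      · intro θ _
        exact h3 θ
    rw [intervalIntegral.integral_const, smul_eq_mul, sub_zero] at h4
    simp only [abs_one, inv_one, one_pow, mul_one]
    calc (2 * Real.pi)⁻¹ * ∫ θ in (0:ℝ)..2 * Real.pi, ‖f (circleMap 0 1 θ)‖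
        ≤ (2 * Real.pi)⁻¹ * (2 * Real.pi * M ^ (n+1)) := by
          apply mul_le_mul_of_nonneg_left h4 (by positivity)
      _ = M ^ (n+1) := by
          field_simp
  rw [hpc] at hco
  have h6 : ((j + n).choose n : A) * a ^ j = ((j+n).choose n : ℂ) • a ^ j := by
    rw [Algebra.smul_def]; simp
  rw [h6, norm_smul] at hco
  simpa using hco

end




lemma exp_neg_le (z : ℝ) (hz : 0 ≤ z) : Real.exp (-z) ≤ 1 - z + z ^ 2 / 2 := by
  have h := Real.quadratic_le_exp_of_nonneg hz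
  rw [Real.exp_neg]
  have h1 : 0 < 1 + z + z ^ 2 / 2 := by positivity
  calc (Real.exp z)⁻¹ ≤ (1 + z + z ^ 2 / 2)⁻¹ := inv_anti₀ h1 h
    _ ≤ 1 - z + z ^ 2 / 2 := by
      rw [inv_le_iff_one_le_mul₀ h1]
      nlinarith [sq_nonneg (z ^ 2)]

lemma log_one_add_le (x : ℝ) (hx : 0 ≤ x) (hx1 : x ≤ 1) :
    Real.log (1 + x) ≤ x - x ^ 2 / 2 + x ^ 3 / 3 := by
  rw [Real.log_le_iff_le_exp (by linarith)]
  set y := x - x ^ 2 / 2 + x ^ 3 / 3 with hy
  have hy0 : 0 ≤ y := by
    rw [hy]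
    have : x ^ 2 ≤ x := by nlinarith
    have : 0 ≤ x ^ 3 := by positivity
    nlinarith
  have h1 : ∑ i ∈ range 4, y ^ i / (Nat.factorial i : ℝ) ≤ Real.exp y := Real.sum_le_exp_of_nonneg hy0 4
  refine le_trans ?_ h1
  simp only [sum_range_succ, sum_range_zero, Nat.factorial]
  norm_num
  set w := x / 2 - x ^ 2 / 3 with hw
  have hw0 : 0 ≤ w := by
    rw [hw]; nlinarith
  have hyw : y = x * (1 - w) := by rw [hy, hw]; ring
  have hw1 : w ≤ 1 := by rw [hw]; nlinarith
  have h3 : x ^ 3 * (1 - 3 * w) ≤ y ^ 3 := by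
    rw [hyw, mul_pow]
    apply mul_le_mul_of_nonneg_left _ (by positivity)
    nlinarith [mul_nonneg hw0 hw0, mul_nonneg (mul_nonneg hw0 hw0) (by linarith : 0 ≤ 1 - w)]
  have h4 : x ≤ y + y ^ 2 / 2 + x ^ 3 * (1 - 3 * w) / 6 := by
    rw [hy, hw]
    have : 0 ≤ x ^ 4 := by positivity
    have : 0 ≤ x ^ 6 := by positivity
    nlinarith
  linarith

lemma main_small (x : ℝ) (hx : 0 < x) (hx1 : x ≤ 1 / 6) (N : ℕ) (hN1 : 1 / x ≤ N) (hN2 : (N : ℝ) ≤ 1 / x + 1) :
    (1 + x) ^ N / N ≤ Real.exp 1 * x * (1 - x / 2 + 11 / 24 * x ^ 2) := by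
  set y := 1 / x with hy
  have hxy : x * y = 1 := by rw [hy]; field_simp
  have hy6 : 6 ≤ y := by rw [hy, le_div_iff₀ hx]; linarith
  have hNpos : (0:ℝ) < N := by linarith
  have h1x : (0:ℝ) < 1 + x := by linarith
  have hpow : (1 + x) ^ N = (1 + x) ^ y * (1 + x) ^ ((N:ℝ) - y) := by
    rw [← Real.rpow_add h1x, ← Real.rpow_natCast]; congr 1; ring
  have hb : (1 + x) ^ ((N:ℝ) - y) ≤ x * N := by
    have := rpow_one_add_le_one_add_mul_self (s := x) (by linarith) (p := (N:ℝ) - y) (by linarith) (by linarith)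
    calc _ ≤ _ := this
      _ = x * N := by
        have : ((N:ℝ) - y) * x = x * N - x * y := by ring
        rw [this, hxy]; ring
  have hyp : (1 + x) ^ y ≤ Real.exp 1 * (1 - x / 2 + 11 / 24 * x ^ 2) := by
    rw [Real.rpow_def_of_pos h1x]
    have hl := log_one_add_le x hx.le (by linarith)
    have hexp : Real.log (1 + x) * y ≤ 1 + -(x / 2 - x ^ 2 / 3) := by
      calc Real.log (1 + x) * y ≤ (x - x ^ 2 / 2 + x ^ 3 / 3) * y :=
            mul_le_mul_of_nonneg_right hl (by linarith)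
        _ = (x * y) * (1 - x / 2 + x ^ 2 / 3) := by ring
        _ = 1 + -(x / 2 - x ^ 2 / 3) := by rw [hxy]; ring
    calc Real.exp (Real.log (1 + x) * y) ≤ Real.exp (1 + -(x / 2 - x ^ 2 / 3)) := Real.exp_le_exp.2 hexp
      _ = Real.exp 1 * Real.exp (-(x / 2 - x ^ 2 / 3)) := Real.exp_add _ _
      _ ≤ Real.exp 1 * (1 - x / 2 + 11 / 24 * x ^ 2) := by
        apply mul_le_mul_of_nonneg_left _ (Real.exp_pos 1).le
        have hz : 0 ≤ x / 2 - x ^ 2 / 3 := by nlinarith
        refine (exp_neg_le _ hz).trans ?_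
        have : (x / 2 - x ^ 2 / 3) ^ 2 ≤ (x / 2) ^ 2 := by
          apply pow_le_pow_left₀ hz
          have : 0 ≤ x ^ 2 := by positivity
          linarith
        nlinarith
  rw [div_le_iff₀ hNpos, hpow]
  calc (1 + x) ^ y * (1 + x) ^ ((N:ℝ) - y) ≤ (Real.exp 1 * (1 - x / 2 + 11 / 24 * x ^ 2)) * (x * N) := by
        apply mul_le_mul hyp hb (by positivity)
        have : 0 ≤ 1 - x / 2 + 11 / 24 * x ^ 2 := by nlinarith
        positivity
    _ = _ := by ring

lemma poly_small (x E : ℝ) (hx : 0 < x) (hx1 : x ≤ 1 / 6) (hE : 2.7 < E) (hE2 : E < 2.7183)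
    (a : ℝ) (ha0 : 0 ≤ a) (ha : a ≤ E * x * (1 - x / 2 + 11 / 24 * x ^ 2)) :
    a + a ^ 2 * (1 / (2 * (1 - x))) ≤ E * x * (1 + x) := by
  set u := 1 - x / 2 + 11 / 24 * x ^ 2 with hu
  have hu0 : 0 ≤ u := by rw [hu]; nlinarith
  have hEx : 0 ≤ E * x := by positivity
  have h1x : 0 < 1 - x := by linarith
  have h1 : a ^ 2 ≤ (E * x * u) ^ 2 := pow_le_pow_left₀ ha0 ha 2
  have h2 : a + a ^ 2 * (1 / (2 * (1 - x))) ≤ E * x * u + (E * x * u) ^ 2 * (1 / (2 * (1 - x))) := by
    apply add_le_add ha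
    apply mul_le_mul_of_nonneg_right h1 (by positivity)
  refine h2.trans ?_
  have h3 : E * x * u + (E * x * u) ^ 2 * (1 / (2 * (1 - x))) = E * x * (u + E * x * u ^ 2 / (2 * (1 - x))) := by
    field_simp
  rw [h3]
  apply mul_le_mul_of_nonneg_left _ hEx
  have hu2 : u ^ 2 ≤ 1 - x + 7 / 6 * x ^ 2 := by
    rw [hu]
    have : 0 ≤ x ^ 3 * (11 / 24 - 121 / 576 * x) := by
      apply mul_nonneg (by positivity); linarith
    nlinarith
  have h4 : E * x * u ^ 2 / (2 * (1 - x)) ≤ 1 + x - u := by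
    rw [div_le_iff₀ (by positivity)]
    have h5 : E * x * u ^ 2 ≤ 2.7183 * x * (1 - x + 7 / 6 * x ^ 2) := by
      have : E * x ≤ 2.7183 * x := by nlinarith
      apply mul_le_mul this hu2 (by positivity) (by positivity)
    refine h5.trans ?_
    have h6 : (1 + x - u) * (2 * (1 - x)) = x * ((3 / 2 - 11 / 24 * x) * (2 * (1 - x))) := by
      rw [hu]; ring
    rw [h6, show 2.7183 * x * (1 - x + 7 / 6 * x ^ 2) = x * (2.7183 * (1 - x + 7 / 6 * x ^ 2)) by ring]
    apply mul_le_mul_of_nonneg_left _ hx.le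
    nlinarith
  linarith




/-- convexity of powers: below the chord. -/
lemma chord (k : ℕ) (p q M : ℝ) (hp : 0 ≤ p) (hpq : p < q) (h1 : p ≤ M) (h2 : M ≤ q) :
    M ^ k * (q - p) ≤ p ^ k * (q - M) + q ^ k * (M - p) := by
  have hsum : (q - M) / (q - p) + (M - p) / (q - p) = 1 := by
    rw [← add_div, show q - M + (M - p) = q - p by ring]
    exact div_self (by linarith)
  have hc : (((q - M) / (q - p)) • p + ((M - p) / (q - p)) • q) ^ k ≤
      ((q - M) / (q - p)) • p ^ k + ((M - p) / (q - p)) • q ^ k :=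
    (convexOn_pow (𝕜 := ℝ) k).2 (show p ∈ Set.Ici (0:ℝ) by simpa using hp)
      (show q ∈ Set.Ici (0:ℝ) by simp; linarith) (div_nonneg (by linarith) (by linarith))
      (div_nonneg (by linarith) (by linarith))
      hsum
  have hne : (q - p) ≠ 0 := by linarith
  have hM : (q - M) / (q - p) * p + (M - p) / (q - p) * q = M := by
    field_simp; ring
  simp only [smul_eq_mul] at hc
  rw [hM] at hc
  have hpos : 0 < q - p := by linarith
  calc M ^ k * (q - p) ≤ ((q - M) / (q - p) * p ^ k + (M - p) / (q - p) * q ^ k) * (q - p) :=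
        mul_le_mul_of_nonneg_right hc hpos.le
    _ = p ^ k * (q - M) + q ^ k * (M - p) := by field_simp

variable (t : ℕ → ℝ) (M : ℝ)

/-- telescoping identity -/
lemma telescope (k j : ℕ) (hk : 2 ≤ k) :
    (1 : ℝ) / ((j + k).choose k : ℝ) =
      (k : ℝ) / ((k - 1) * ((j + k - 1).choose (k - 1) : ℝ)) -
        (k : ℝ) / ((k - 1) * ((j + 1 + k - 1).choose (k - 1) : ℝ)) := by
  obtain ⟨m, rfl⟩ : ∃ m, k = m + 2 := ⟨k - 2, by omega⟩
  have e1 : j + (m + 2) - 1 = j + m + 1 := by omega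
  have e2 : j + 1 + (m + 2) - 1 = j + m + 2 := by omega
  have e3 : m + 2 - 1 = m + 1 := by omega
  rw [e1, e2, e3]
  have h1 : (j + m + 1 + 1) * (j + m + 1).choose (m + 1) = (j + m + 1 + 1).choose (m + 1 + 1) * (m + 1 + 1) :=
    Nat.add_one_mul_choose_eq (j + m + 1) (m + 1)
  have h2 : (j + m + 1).choose (m + 1) * (j + m + 1 + 1) = (j + m + 1 + 1).choose (m + 1) * (j + m + 1 + 1 - (m + 1)) :=
    Nat.choose_mul_succ_eq (j + m + 1) (m + 1)
  have e4 : j + m + 1 + 1 - (m + 1) = j + 1 := by omega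
  rw [e4] at h2
  have h1' : ((j : ℝ) + m + 2) * ((j + m + 1).choose (m + 1) : ℝ) = ((j + m + 2).choose (m + 2) : ℝ) * (m + 2) := by
    have := congrArg (fun x : ℕ => (x : ℝ)) h1
    push_cast at this
    rw [show j + m + 1 + 1 = j + m + 2 by ring, show m + 1 + 1 = m + 2 by ring] at this
    linarith
  have h2' : ((j + m + 1).choose (m + 1) : ℝ) * ((j : ℝ) + m + 2) = ((j + m + 2).choose (m + 1) : ℝ) * (j + 1) := by
    have := congrArg (fun x : ℕ => (x : ℝ)) h2
    push_cast at this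
    rw [show j + m + 1 + 1 = j + m + 2 by ring] at this
    linarith
  have p1 : (0:ℝ) < ((j + m + 1).choose (m + 1) : ℝ) := by
    exact_mod_cast Nat.choose_pos (by omega)
  have p2 : (0:ℝ) < ((j + m + 2).choose (m + 1) : ℝ) := by
    exact_mod_cast Nat.choose_pos (by omega)
  have p3 : (0:ℝ) < ((j + (m + 2)).choose (m + 2) : ℝ) := by
    exact_mod_cast Nat.choose_pos (by omega)
  have e5 : ((j + (m + 2)).choose (m + 2) : ℝ) = ((j + m + 2).choose (m + 2) : ℝ) := by
    rw [show j + (m + 2) = j + m + 2 by ring]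
  rw [e5] at p3 ⊢
  push_cast
  set a := ((j + m + 1).choose (m + 1) : ℝ)
  set b := ((j + m + 2).choose (m + 1) : ℝ)
  set c := ((j + m + 2).choose (m + 2) : ℝ)
  have hj : (0:ℝ) ≤ j := Nat.cast_nonneg j
  have hm : (0:ℝ) ≤ m := Nat.cast_nonneg m
  have hb : b = a * (j + m + 2) / (j + 1) := by
    field_simp; linarith
  have hcc : c = a * (j + m + 2) / (m + 2) := by
    field_simp; linarith
  rw [hb, hcc]
  have : (m:ℝ) + 2 - 1 ≠ 0 := by linarith
  field_simp
  ring

lemma tail_bound (ht : ∀ j, 0 ≤ t j) (k : ℕ) (hk : 2 ≤ k)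
    (H : ∀ j, ((j + k).choose k : ℝ) * t j ≤ M ^ (k + 1)) (J : ℕ) :
    Summable (fun i => t (i + J + 1)) ∧ ∑' i, t (i + J + 1) ≤
      M ^ (k + 1) * ((k : ℝ) / ((k - 1) * ((J + k).choose (k - 1) : ℝ))) := by
  have hM : 0 ≤ M ^ (k + 1) := le_trans (mul_nonneg (Nat.cast_nonneg _) (ht 0)) (H 0)
  have hterm : ∀ j, t j ≤ M ^ (k + 1) * (1 / ((j + k).choose k : ℝ)) := by
    intro j
    have p3 : (0:ℝ) < ((j + k).choose k : ℝ) := by
      exact_mod_cast Nat.choose_pos (by omega)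
    rw [mul_one_div, le_div_iff₀ p3]
    linarith [H j]
  have hpart : ∀ n, ∑ i ∈ range n, t (i + J + 1) ≤
      M ^ (k + 1) * ((k : ℝ) / ((k - 1) * ((J + k).choose (k - 1) : ℝ))
        - (k : ℝ) / ((k - 1) * ((n + J + k).choose (k - 1) : ℝ))) := by
    intro n
    induction n with
    | zero => simp
    | succ n ih =>
      rw [sum_range_succ]
      have h1 := hterm (n + J + 1)
      rw [telescope k (n + J + 1) hk] at h1
      have e1 : n + J + 1 + k - 1 = n + J + k := by omega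
      have e2 : n + J + 1 + 1 + k - 1 = n + 1 + J + k := by omega
      rw [e1, e2] at h1
      calc _ ≤ _ := add_le_add ih h1
        _ = _ := by ring
  have hk1 : (0:ℝ) < (k:ℝ) - 1 := by
    have : (2:ℝ) ≤ k := by exact_mod_cast hk
    linarith
  have hbound : ∀ n, ∑ i ∈ range n, t (i + J + 1) ≤
      M ^ (k + 1) * ((k : ℝ) / ((k - 1) * ((J + k).choose (k - 1) : ℝ))) := by
    intro n
    refine (hpart n).trans (mul_le_mul_of_nonneg_left ?_ hM)
    have : 0 ≤ (k : ℝ) / ((k - 1) * ((n + J + k).choose (k - 1) : ℝ)) := by positivity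
    linarith
  have hs : Summable (fun i => t (i + J + 1)) :=
    summable_of_sum_range_le (fun i => ht _) hbound
  exact ⟨hs, hs.tsum_le_of_sum_range_le hbound⟩


section
variable (ht : ∀ j, 0 ≤ t j) (H : ∀ k j, ((j + k).choose k : ℝ) * t j ≤ M ^ (k + 1))
include ht H

lemma split_sum (J : ℕ) : ∑' i, t (i + 1) = ∑ i ∈ range J, t (i + 1) + ∑' i, t (i + J + 1) := by
  have hs := (tail_bound t M ht 2 (le_refl 2) (H 2) 0).1
  simp only [add_zero] at hs
  exact (hs.sum_add_tsum_nat_add J).symm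

lemma int1 (h1 : 7/6 ≤ M) (h2 : M ≤ 6/5) : ∑' i, t (i + 1) ≤ 2.718 * M * (M - 1) := by
  rw [split_sum t M ht H 1]
  have hM0 : 0 < M := by linarith
  have hs := (tail_bound t M ht 11 (by norm_num) (H 11) 1).2
  have hc0 : ((1+11 : ℕ).choose (11 - 1) : ℝ) = 66 := by
    have : (1+11).choose (11 - 1) = 66 := by decide +kernel
    exact_mod_cast this
  rw [hc0] at hs
  have b1 := H 5 1
  have c1 : ((1+5 : ℕ).choose 5 : ℝ) = 6 := by
    have : (1+5).choose 5 = 6 := by decide +kernel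
    exact_mod_cast this
  rw [c1] at b1
  simp only [sum_range_succ, sum_range_zero, zero_add, Nat.reduceAdd] at *
  have d5 := chord 5 (7/6) (6/5) M (by norm_num) (by norm_num) h1 h2
  have d11 := chord 11 (7/6) (6/5) M (by norm_num) (by norm_num) h1 h2
  have key : M ^ 5 / 6 + M ^ 11 * (11 / (10 * 66)) ≤ 2.718 * (M - 1) := by
    norm_num at *
    linarith
  have key2 := mul_le_mul_of_nonneg_left key hM0.le
  have f1 : t 1 ≤ M * (M ^ 5 / 6) := by
    have : M * (M ^ 5 / 6) = M ^ 6 / 6 := by ring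
    rw [this, le_div_iff₀ (by norm_num)]
    linarith
  have g : M ^ 12 * ((11:ℕ) / (((11:ℕ) - 1) * 66)) = M * (M ^ 11 * (11 / (10 * 66))) := by
    push_cast; ring
  rw [g] at hs
  linarith

lemma int2 (h1 : 6/5 ≤ M) (h2 : M ≤ 5/4) : ∑' i, t (i + 1) ≤ 2.718 * M * (M - 1) := by
  rw [split_sum t M ht H 1]
  have hM0 : 0 < M := by linarith
  have hs := (tail_bound t M ht 10 (by norm_num) (H 10) 1).2
  have hc0 : ((1+10 : ℕ).choose (10 - 1) : ℝ) = 55 := by
    have : (1+10).choose (10 - 1) = 55 := by decide +kernel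
    exact_mod_cast this
  rw [hc0] at hs
  have b1 := H 4 1
  have c1 : ((1+4 : ℕ).choose 4 : ℝ) = 5 := by
    have : (1+4).choose 4 = 5 := by decide +kernel
    exact_mod_cast this
  rw [c1] at b1
  simp only [sum_range_succ, sum_range_zero, zero_add, Nat.reduceAdd] at *
  have d4 := chord 4 (6/5) (5/4) M (by norm_num) (by norm_num) h1 h2
  have d10 := chord 10 (6/5) (5/4) M (by norm_num) (by norm_num) h1 h2
  have key : M ^ 4 / 5 + M ^ 10 * (10 / (9 * 55)) ≤ 2.718 * (M - 1) := by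
    norm_num at *
    linarith
  have key2 := mul_le_mul_of_nonneg_left key hM0.le
  have f1 : t 1 ≤ M * (M ^ 4 / 5) := by
    have : M * (M ^ 4 / 5) = M ^ 5 / 5 := by ring
    rw [this, le_div_iff₀ (by norm_num)]
    linarith
  have g : M ^ 11 * ((10:ℕ) / (((10:ℕ) - 1) * 55)) = M * (M ^ 10 * (10 / (9 * 55))) := by
    push_cast; ring
  rw [g] at hs
  linarith

lemma int3 (h1 : 5/4 ≤ M) (h2 : M ≤ 4/3) : ∑' i, t (i + 1) ≤ 2.718 * M * (M - 1) := by
  rw [split_sum t M ht H 2]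
  have hM0 : 0 < M := by linarith
  have hs := (tail_bound t M ht 8 (by norm_num) (H 8) 2).2
  have hc0 : ((2+8 : ℕ).choose (8 - 1) : ℝ) = 120 := by
    have : (2+8).choose (8 - 1) = 120 := by decide +kernel
    exact_mod_cast this
  rw [hc0] at hs
  have b1 := H 3 1
  have c1 : ((1+3 : ℕ).choose 3 : ℝ) = 4 := by
    have : (1+3).choose 3 = 4 := by decide +kernel
    exact_mod_cast this
  rw [c1] at b1
  have b2 := H 7 2
  have c2 : ((2+7 : ℕ).choose 7 : ℝ) = 36 := by
    have : (2+7).choose 7 = 36 := by decide +kernel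
    exact_mod_cast this
  rw [c2] at b2
  simp only [sum_range_succ, sum_range_zero, zero_add, Nat.reduceAdd] at *
  have d3 := chord 3 (5/4) (4/3) M (by norm_num) (by norm_num) h1 h2
  have d7 := chord 7 (5/4) (4/3) M (by norm_num) (by norm_num) h1 h2
  have d8 := chord 8 (5/4) (4/3) M (by norm_num) (by norm_num) h1 h2
  have key : M ^ 3 / 4 + M ^ 7 / 36 + M ^ 8 * (8 / (7 * 120)) ≤ 2.718 * (M - 1) := by
    norm_num at *
    linarith
  have key2 := mul_le_mul_of_nonneg_left key hM0.le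
  have f1 : t 1 ≤ M * (M ^ 3 / 4) := by
    have : M * (M ^ 3 / 4) = M ^ 4 / 4 := by ring
    rw [this, le_div_iff₀ (by norm_num)]
    linarith
  have f2 : t 2 ≤ M * (M ^ 7 / 36) := by
    have : M * (M ^ 7 / 36) = M ^ 8 / 36 := by ring
    rw [this, le_div_iff₀ (by norm_num)]
    linarith
  have g : M ^ 9 * ((8:ℕ) / (((8:ℕ) - 1) * 120)) = M * (M ^ 8 * (8 / (7 * 120))) := by
    push_cast; ring
  rw [g] at hs
  linarith

lemma int4 (h1 : 4/3 ≤ M) (h2 : M ≤ 3/2) : ∑' i, t (i + 1) ≤ 2.718 * M * (M - 1) := by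
  rw [split_sum t M ht H 2]
  have hM0 : 0 < M := by linarith
  have hs := (tail_bound t M ht 7 (by norm_num) (H 7) 2).2
  have hc0 : ((2+7 : ℕ).choose (7 - 1) : ℝ) = 84 := by
    have : (2+7).choose (7 - 1) = 84 := by decide +kernel
    exact_mod_cast this
  rw [hc0] at hs
  have b1 := H 2 1
  have c1 : ((1+2 : ℕ).choose 2 : ℝ) = 3 := by
    have : (1+2).choose 2 = 3 := by decide +kernel
    exact_mod_cast this
  rw [c1] at b1
  have b2 := H 5 2
  have c2 : ((2+5 : ℕ).choose 5 : ℝ) = 21 := by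
    have : (2+5).choose 5 = 21 := by decide +kernel
    exact_mod_cast this
  rw [c2] at b2
  simp only [sum_range_succ, sum_range_zero, zero_add, Nat.reduceAdd] at *
  have d2 := chord 2 (4/3) (3/2) M (by norm_num) (by norm_num) h1 h2
  have d5 := chord 5 (4/3) (3/2) M (by norm_num) (by norm_num) h1 h2
  have d7 := chord 7 (4/3) (3/2) M (by norm_num) (by norm_num) h1 h2
  have key : M ^ 2 / 3 + M ^ 5 / 21 + M ^ 7 * (7 / (6 * 84)) ≤ 2.718 * (M - 1) := by
    norm_num at *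
    linarith
  have key2 := mul_le_mul_of_nonneg_left key hM0.le
  have f1 : t 1 ≤ M * (M ^ 2 / 3) := by
    have : M * (M ^ 2 / 3) = M ^ 3 / 3 := by ring
    rw [this, le_div_iff₀ (by norm_num)]
    linarith
  have f2 : t 2 ≤ M * (M ^ 5 / 21) := by
    have : M * (M ^ 5 / 21) = M ^ 6 / 21 := by ring
    rw [this, le_div_iff₀ (by norm_num)]
    linarith
  have g : M ^ 8 * ((7:ℕ) / (((7:ℕ) - 1) * 84)) = M * (M ^ 7 * (7 / (6 * 84))) := by
    push_cast; ring
  rw [g] at hs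
  linarith

lemma int5 (h1 : 3/2 ≤ M) (h2 : M ≤ 7/4) : ∑' i, t (i + 1) ≤ 2.718 * M * (M - 1) := by
  rw [split_sum t M ht H 2]
  have hM0 : 0 < M := by linarith
  have hs := (tail_bound t M ht 5 (by norm_num) (H 5) 2).2
  have hc0 : ((2+5 : ℕ).choose (5 - 1) : ℝ) = 35 := by
    have : (2+5).choose (5 - 1) = 35 := by decide +kernel
    exact_mod_cast this
  rw [hc0] at hs
  have b1 := H 1 1
  have c1 : ((1+1 : ℕ).choose 1 : ℝ) = 2 := by
    have : (1+1).choose 1 = 2 := by decide +kernel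
    exact_mod_cast this
  rw [c1] at b1
  have b2 := H 3 2
  have c2 : ((2+3 : ℕ).choose 3 : ℝ) = 10 := by
    have : (2+3).choose 3 = 10 := by decide +kernel
    exact_mod_cast this
  rw [c2] at b2
  simp only [sum_range_succ, sum_range_zero, zero_add, Nat.reduceAdd] at *
  have d3 := chord 3 (3/2) (7/4) M (by norm_num) (by norm_num) h1 h2
  have d5 := chord 5 (3/2) (7/4) M (by norm_num) (by norm_num) h1 h2
  have key : M ^ 1 / 2 + M ^ 3 / 10 + M ^ 5 * (5 / (4 * 35)) ≤ 2.718 * (M - 1) := by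
    norm_num at *
    linarith
  have key2 := mul_le_mul_of_nonneg_left key hM0.le
  have f1 : t 1 ≤ M * (M ^ 1 / 2) := by
    have : M * (M ^ 1 / 2) = M ^ 2 / 2 := by ring
    rw [this, le_div_iff₀ (by norm_num)]
    linarith
  have f2 : t 2 ≤ M * (M ^ 3 / 10) := by
    have : M * (M ^ 3 / 10) = M ^ 4 / 10 := by ring
    rw [this, le_div_iff₀ (by norm_num)]
    linarith
  have g : M ^ 6 * ((5:ℕ) / (((5:ℕ) - 1) * 35)) = M * (M ^ 5 * (5 / (4 * 35))) := by
    push_cast; ring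
  rw [g] at hs
  linarith

lemma int6 (h1 : 7/4 ≤ M) (h2 : M ≤ 2) : ∑' i, t (i + 1) ≤ 2.718 * M * (M - 1) := by
  rw [split_sum t M ht H 3]
  have hM0 : 0 < M := by linarith
  have hs := (tail_bound t M ht 4 (by norm_num) (H 4) 3).2
  have hc0 : ((3+4 : ℕ).choose (4 - 1) : ℝ) = 35 := by
    have : (3+4).choose (4 - 1) = 35 := by decide +kernel
    exact_mod_cast this
  rw [hc0] at hs
  have b1 := H 1 1
  have c1 : ((1+1 : ℕ).choose 1 : ℝ) = 2 := by
    have : (1+1).choose 1 = 2 := by decide +kernel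
    exact_mod_cast this
  rw [c1] at b1
  have b2 := H 2 2
  have c2 : ((2+2 : ℕ).choose 2 : ℝ) = 6 := by
    have : (2+2).choose 2 = 6 := by decide +kernel
    exact_mod_cast this
  rw [c2] at b2
  have b3 := H 3 3
  have c3 : ((3+3 : ℕ).choose 3 : ℝ) = 20 := by
    have : (3+3).choose 3 = 20 := by decide +kernel
    exact_mod_cast this
  rw [c3] at b3
  simp only [sum_range_succ, sum_range_zero, zero_add, Nat.reduceAdd] at *
  have d2 := chord 2 (7/4) (2) M (by norm_num) (by norm_num) h1 h2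
  have d3 := chord 3 (7/4) (2) M (by norm_num) (by norm_num) h1 h2
  have d4 := chord 4 (7/4) (2) M (by norm_num) (by norm_num) h1 h2
  have key : M ^ 1 / 2 + M ^ 2 / 6 + M ^ 3 / 20 + M ^ 4 * (4 / (3 * 35)) ≤ 2.718 * (M - 1) := by
    norm_num at *
    linarith
  have key2 := mul_le_mul_of_nonneg_left key hM0.le
  have f1 : t 1 ≤ M * (M ^ 1 / 2) := by
    have : M * (M ^ 1 / 2) = M ^ 2 / 2 := by ring
    rw [this, le_div_iff₀ (by norm_num)]
    linarith
  have f2 : t 2 ≤ M * (M ^ 2 / 6) := by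
    have : M * (M ^ 2 / 6) = M ^ 3 / 6 := by ring
    rw [this, le_div_iff₀ (by norm_num)]
    linarith
  have f3 : t 3 ≤ M * (M ^ 3 / 20) := by
    have : M * (M ^ 3 / 20) = M ^ 4 / 20 := by ring
    rw [this, le_div_iff₀ (by norm_num)]
    linarith
  have g : M ^ 5 * ((4:ℕ) / (((4:ℕ) - 1) * 35)) = M * (M ^ 4 * (4 / (3 * 35))) := by
    push_cast; ring
  rw [g] at hs
  linarith

lemma int7 (h1 : 2 ≤ M) (h2 : M ≤ 3) : ∑' i, t (i + 1) ≤ 2.718 * M * (M - 1) := by
  rw [split_sum t M ht H 4]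
  have hM0 : 0 < M := by linarith
  have hs := (tail_bound t M ht 4 (by norm_num) (H 4) 4).2
  have hc0 : ((4+4 : ℕ).choose (4 - 1) : ℝ) = 56 := by
    have : (4+4).choose (4 - 1) = 56 := by decide +kernel
    exact_mod_cast this
  rw [hc0] at hs
  have b1 := H 0 1
  have c1 : ((1+0 : ℕ).choose 0 : ℝ) = 1 := by
    have : (1+0).choose 0 = 1 := by decide +kernel
    exact_mod_cast this
  rw [c1] at b1
  have b2 := H 1 2
  have c2 : ((2+1 : ℕ).choose 1 : ℝ) = 3 := by
    have : (2+1).choose 1 = 3 := by decide +kernel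
    exact_mod_cast this
  rw [c2] at b2
  have b3 := H 2 3
  have c3 : ((3+2 : ℕ).choose 2 : ℝ) = 10 := by
    have : (3+2).choose 2 = 10 := by decide +kernel
    exact_mod_cast this
  rw [c3] at b3
  have b4 := H 2 4
  have c4 : ((4+2 : ℕ).choose 2 : ℝ) = 15 := by
    have : (4+2).choose 2 = 15 := by decide +kernel
    exact_mod_cast this
  rw [c4] at b4
  simp only [sum_range_succ, sum_range_zero, zero_add, Nat.reduceAdd] at *
  have d2 := chord 2 (2) (3) M (by norm_num) (by norm_num) h1 h2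
  have d4 := chord 4 (2) (3) M (by norm_num) (by norm_num) h1 h2
  have key : M ^ 0 / 1 + M ^ 1 / 3 + M ^ 2 / 10 + M ^ 2 / 15 + M ^ 4 * (4 / (3 * 56)) ≤ 2.718 * (M - 1) := by
    norm_num at *
    linarith
  have key2 := mul_le_mul_of_nonneg_left key hM0.le
  have f1 : t 1 ≤ M * (M ^ 0 / 1) := by
    have : M * (M ^ 0 / 1) = M ^ 1 / 1 := by ring
    rw [this, le_div_iff₀ (by norm_num)]
    linarith
  have f2 : t 2 ≤ M * (M ^ 1 / 3) := by
    have : M * (M ^ 1 / 3) = M ^ 2 / 3 := by ring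
    rw [this, le_div_iff₀ (by norm_num)]
    linarith
  have f3 : t 3 ≤ M * (M ^ 2 / 10) := by
    have : M * (M ^ 2 / 10) = M ^ 3 / 10 := by ring
    rw [this, le_div_iff₀ (by norm_num)]
    linarith
  have f4 : t 4 ≤ M * (M ^ 2 / 15) := by
    have : M * (M ^ 2 / 15) = M ^ 3 / 15 := by ring
    rw [this, le_div_iff₀ (by norm_num)]
    linarith
  have g : M ^ 5 * ((4:ℕ) / (((4:ℕ) - 1) * 56)) = M * (M ^ 4 * (4 / (3 * 56))) := by
    push_cast; ring
  rw [g] at hs
  linarith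

lemma int8 (h1 : 3 ≤ M) (h2 : M ≤ 4) : ∑' i, t (i + 1) ≤ 2.718 * M * (M - 1) := by
  rw [split_sum t M ht H 5]
  have hM0 : 0 < M := by linarith
  have hs := (tail_bound t M ht 3 (by norm_num) (H 3) 5).2
  have hc0 : ((5+3 : ℕ).choose (3 - 1) : ℝ) = 28 := by
    have : (5+3).choose (3 - 1) = 28 := by decide +kernel
    exact_mod_cast this
  rw [hc0] at hs
  have b1 := H 0 1
  have c1 : ((1+0 : ℕ).choose 0 : ℝ) = 1 := by
    have : (1+0).choose 0 = 1 := by decide +kernel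
    exact_mod_cast this
  rw [c1] at b1
  have b2 := H 0 2
  have c2 : ((2+0 : ℕ).choose 0 : ℝ) = 1 := by
    have : (2+0).choose 0 = 1 := by decide +kernel
    exact_mod_cast this
  rw [c2] at b2
  have b3 := H 1 3
  have c3 : ((3+1 : ℕ).choose 1 : ℝ) = 4 := by
    have : (3+1).choose 1 = 4 := by decide +kernel
    exact_mod_cast this
  rw [c3] at b3
  have b4 := H 1 4
  have c4 : ((4+1 : ℕ).choose 1 : ℝ) = 5 := by
    have : (4+1).choose 1 = 5 := by decide +kernel
    exact_mod_cast this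
  rw [c4] at b4
  have b5 := H 1 5
  have c5 : ((5+1 : ℕ).choose 1 : ℝ) = 6 := by
    have : (5+1).choose 1 = 6 := by decide +kernel
    exact_mod_cast this
  rw [c5] at b5
  simp only [sum_range_succ, sum_range_zero, zero_add, Nat.reduceAdd] at *
  have d3 := chord 3 (3) (4) M (by norm_num) (by norm_num) h1 h2
  have key : M ^ 0 / 1 + M ^ 0 / 1 + M ^ 1 / 4 + M ^ 1 / 5 + M ^ 1 / 6 + M ^ 3 * (3 / (2 * 28)) ≤ 2.718 * (M - 1) := by
    norm_num at *
    linarith
  have key2 := mul_le_mul_of_nonneg_left key hM0.le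
  have f1 : t 1 ≤ M * (M ^ 0 / 1) := by
    have : M * (M ^ 0 / 1) = M ^ 1 / 1 := by ring
    rw [this, le_div_iff₀ (by norm_num)]
    linarith
  have f2 : t 2 ≤ M * (M ^ 0 / 1) := by
    have : M * (M ^ 0 / 1) = M ^ 1 / 1 := by ring
    rw [this, le_div_iff₀ (by norm_num)]
    linarith
  have f3 : t 3 ≤ M * (M ^ 1 / 4) := by
    have : M * (M ^ 1 / 4) = M ^ 2 / 4 := by ring
    rw [this, le_div_iff₀ (by norm_num)]
    linarith
  have f4 : t 4 ≤ M * (M ^ 1 / 5) := by
    have : M * (M ^ 1 / 5) = M ^ 2 / 5 := by ring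
    rw [this, le_div_iff₀ (by norm_num)]
    linarith
  have f5 : t 5 ≤ M * (M ^ 1 / 6) := by
    have : M * (M ^ 1 / 6) = M ^ 2 / 6 := by ring
    rw [this, le_div_iff₀ (by norm_num)]
    linarith
  have g : M ^ 4 * ((3:ℕ) / (((3:ℕ) - 1) * 28)) = M * (M ^ 3 * (3 / (2 * 28))) := by
    push_cast; ring
  rw [g] at hs
  linarith

end


section
variable (ht : ∀ j, 0 ≤ t j) (H : ∀ k j, ((j + k).choose k : ℝ) * t j ≤ M ^ (k + 1))
include ht H

lemma small_range (h1 : 1 < M) (h2 : M ≤ 7 / 6) :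
    ∑' i, t (i + 1) ≤ Real.exp 1 * M * (M - 1) := by
  set x := M - 1 with hx
  have hx0 : 0 < x := by rw [hx]; linarith
  have hx1 : x ≤ 1 / 6 := by rw [hx]; linarith
  have hM : M = 1 + x := by rw [hx]; ring
  set N := ⌈1 / x⌉₊ with hN
  have hN1 : 1 / x ≤ N := Nat.le_ceil _
  have hN2 : (N : ℝ) ≤ 1 / x + 1 := (Nat.ceil_lt_add_one (by positivity)).le
  have h6 : 6 ≤ 1 / x := by rw [le_div_iff₀ hx0]; linarith
  have hN6 : 6 ≤ N := by
    have : (6:ℝ) ≤ N := le_trans h6 hN1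
    exact_mod_cast this
  have hNpos : (0:ℝ) < N := by linarith
  clear_value N
  set a := M ^ N / N with ha
  have ha0 : 0 ≤ a := by rw [ha, hM]; positivity
  have ha1 : a ≤ Real.exp 1 * x * (1 - x / 2 + 11 / 24 * x ^ 2) := by
    rw [ha, hM]; exact main_small x hx0 hx1 N hN1 hN2
  -- first term
  have hb1 : t 1 ≤ a := by
    have := H (N - 1) 1
    have e1 : (1 + (N - 1)).choose (N - 1) = N := by
      obtain ⟨m, rfl⟩ : ∃ m, N = m + 1 := ⟨N - 1, by omega⟩
      simp [add_comm 1 m]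
    rw [e1, show N - 1 + 1 = N by omega] at this
    rw [ha, le_div_iff₀ hNpos]; linarith
  have hb2 := (tail_bound t M ht (2 * N - 1) (by omega) (H (2 * N - 1)) 1).2
  have e2 : ((1 + (2 * N - 1)).choose (2 * N - 1 - 1) : ℝ) = N * (2 * N - 1) := by
    obtain ⟨m, rfl⟩ : ∃ m, N = m + 1 := ⟨N - 1, by omega⟩
    have e3 : 1 + (2 * (m + 1) - 1) = 2 * m + 2 := by omega
    have e4 : 2 * (m + 1) - 1 - 1 = 2 * m := by omega
    rw [e3, e4]
    have e5 : (2 * m + 2).choose (2 * m) = (2 * m + 2).choose 2 := Nat.choose_symm_of_eq_add rfl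
    rw [e5, Nat.cast_choose_two]
    push_cast; ring
  have e6 : ((2 * N - 1 : ℕ) : ℝ) = 2 * N - 1 := by
    rw [Nat.cast_sub (by omega)]; push_cast; ring
  rw [e2, e6] at hb2
  have e7 : 2 * N - 1 + 1 = 2 * N := by omega
  rw [e7] at hb2
  have hN1' : (0:ℝ) < N - 1 := by
    have : (6:ℝ) ≤ N := by exact_mod_cast hN6
    linarith
  have e8 : M ^ (2 * N) * ((2 * (N:ℝ) - 1) / ((2 * N - 1 - 1) * (N * (2 * N - 1)))) = a ^ 2 * (N / (2 * (N - 1))) := by
    have h21 : (0:ℝ) < 2 * N - 1 := by linarith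
    have h22 : (2 * (N:ℝ) - 1 - 1) ≠ 0 := by
      have : 2 * (N:ℝ) - 1 - 1 = 2 * (N - 1) := by ring
      rw [this]; positivity
    rw [ha, mul_comm 2 N, pow_mul, div_pow, ← pow_mul, mul_comm N 2]
    have h23 : (2 * (N:ℝ) - 1 - 1) = 2 * (N - 1) := by ring
    rw [h23]
    field_simp
  rw [e8] at hb2
  have hb3 : (N:ℝ) / (2 * (N - 1)) ≤ 1 / (2 * (1 - x)) := by
    rw [div_le_div_iff₀ (by positivity) (by linarith)]
    have : 1 ≤ x * N := by
      have := mul_le_mul_of_nonneg_left hN1 hx0.le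
      rwa [mul_one_div, div_self hx0.ne'] at this
    nlinarith
  have hb4 : a ^ 2 * (N / (2 * (N - 1))) ≤ a ^ 2 * (1 / (2 * (1 - x))) :=
    mul_le_mul_of_nonneg_left hb3 (by positivity)
  have hfin := poly_small x (Real.exp 1) hx0 hx1 (by have := Real.exp_one_gt_d9; linarith)
    (by have := Real.exp_one_lt_d9; linarith) a ha0 ha1
  rw [split_sum t M ht H 1]
  simp only [sum_range_one, zero_add]
  calc t 1 + ∑' i, t (i + 1 + 1) ≤ a + a ^ 2 * (1 / (2 * (1 - x))) := by linarith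
    _ ≤ Real.exp 1 * x * (1 + x) := hfin
    _ = Real.exp 1 * M * x := by rw [hM]; ring

omit ht H in
lemma harmonic_block (m : ℕ) (hm : 1 ≤ m) : ∑ i ∈ range m, (1:ℝ) / (m + i + 1) + 1 / (4 * m + 1) ≤ 7 / 10 := by
  induction m, hm using Nat.le_induction with
  | base => norm_num
  | succ m hm ih =>
    have h1 : ∑ i ∈ range (m + 1), (1:ℝ) / ((m + 1 : ℕ) + i + 1) =
        ∑ i ∈ range m, (1:ℝ) / (m + i + 1) - 1 / (m + 1) + 1 / (2 * m + 1) + 1 / (2 * m + 2) := by
      have h2 : ∑ i ∈ range (m + 1), (1:ℝ) / ((m + 1 : ℕ) + i + 1) =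
          ∑ i ∈ range (m + 1), (fun i : ℕ => (1:ℝ) / (m + i + 1)) (i + 1) := by
        apply sum_congr rfl; intro i _; push_cast; ring
      rw [h2]
      have h3 := sum_range_succ' (fun i : ℕ => (1:ℝ) / (m + i + 1)) (m + 1)
      have h4 := sum_range_succ (fun i : ℕ => (1:ℝ) / (m + i + 1)) (m + 1)
      have h5 := sum_range_succ (fun i : ℕ => (1:ℝ) / (m + i + 1)) m
      rw [h4, h5] at h3
      push_cast at h3 ⊢
      have h6 : (1:ℝ) / (m + m + 1) = 1 / (2 * m + 1) := by congr 1; ring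
      have h7 : (1:ℝ) / (m + (m + 1) + 1) = 1 / (2 * m + 2) := by congr 1; ring
      have h8 : (1:ℝ) / (m + 0 + 1) = 1 / (m + 1) := by congr 1; ring
      rw [h6, h7, h8] at h3
      linarith
    rw [h1]
    have hm0 : (0:ℝ) < m := by exact_mod_cast hm
    push_cast
    have key : - (1:ℝ) / (m + 1) + 1 / (2 * m + 1) + 1 / (2 * m + 2) + 1 / (4 * (m + 1) + 1) ≤ 1 / (4 * m + 1) := by
      have h9 : - (1:ℝ) / (m + 1) + 1 / (2 * m + 1) + 1 / (2 * m + 2) = 1 / ((2 * m + 1) * (2 * m + 2)) := by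
        field_simp; ring
      rw [h9, ← sub_nonneg]
      have h10 : 1 / (4 * (m:ℝ) + 1) - (1 / ((2 * m + 1) * (2 * m + 2)) + 1 / (4 * (m + 1) + 1)) =
          3 / ((4 * m + 1) * ((2 * m + 1) * (2 * m + 2)) * (4 * (m + 1) + 1)) := by
        field_simp; ring
      rw [h10]; positivity
    have h11 : - (1:ℝ) / (m + 1) = - (1 / (m + 1)) := by ring
    rw [h11] at key
    linarith

lemma large_range (h1 : 4 ≤ M) : ∑' i, t (i + 1) ≤ 2.718 * M * (M - 1) := by
  set m := ⌊M⌋₊ with hm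
  have hm1 : (m:ℝ) ≤ M := Nat.floor_le (by linarith)
  have hm2 : M < m + 1 := Nat.lt_floor_add_one M
  have hm4 : 4 ≤ m := Nat.le_floor (by exact_mod_cast h1)
  have hm4' : (4:ℝ) ≤ m := by exact_mod_cast hm4
  obtain ⟨a, hma⟩ : ∃ a, m = a + 1 := ⟨m - 1, by omega⟩
  have hma' : (m:ℝ) = a + 1 := by exact_mod_cast hma
  have hM0 : 0 < M := by linarith
  rw [split_sum t M ht H (a + m + a)]
  rw [sum_range_add, sum_range_add]
  -- block 1
  have B1 : ∑ i ∈ range a, t (i + 1) ≤ (m - 1) * M := by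
    have : ∀ i ∈ range a, t (i + 1) ≤ M := by
      intro i _
      have := H 0 (i + 1)
      simpa using this
    calc ∑ i ∈ range a, t (i + 1) ≤ ∑ i ∈ range a, M := sum_le_sum this
      _ = (m - 1) * M := by rw [sum_const, card_range, nsmul_eq_mul, hma']; ring
  -- block 2
  have B2 : ∑ i ∈ range m, t (a + i + 1) ≤ M ^ 2 * (7 / 10) := by
    have : ∀ i ∈ range m, t (a + i + 1) ≤ M ^ 2 * (1 / (m + i + 1)) := by
      intro i _
      have h3 := H 1 (a + i + 1)
      rw [Nat.choose_one_right] at h3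
      push_cast at h3
      rw [mul_one_div, le_div_iff₀ (by positivity), hma']
      have : ((a:ℝ) + i + 1 + 1) * t (a + i + 1) ≤ M ^ 2 := by simpa using h3
      nlinarith
    calc ∑ i ∈ range m, t (a + i + 1) ≤ ∑ i ∈ range m, M ^ 2 * ((1:ℝ) / (m + i + 1)) := sum_le_sum this
      _ = M ^ 2 * ∑ i ∈ range m, (1:ℝ) / (m + i + 1) := by rw [mul_sum]
      _ ≤ M ^ 2 * (7 / 10) := by
        apply mul_le_mul_of_nonneg_left _ (by positivity)
        have := harmonic_block m (by omega)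
        have h5 : (0:ℝ) < 1 / (4 * m + 1) := by positivity
        linarith
  -- block 3
  have B3 : ∀ L : ℕ, ∑ i ∈ range L, t (a + m + i + 1) ≤ 2 * M ^ 3 * (1 / (2 * m + 1) - 1 / (2 * m + 1 + L)) := by
    intro L
    induction L with
    | zero => simp
    | succ L ih =>
      rw [sum_range_succ]
      have h3 := H 2 (a + m + L + 1)
      rw [Nat.cast_choose_two] at h3
      have e1 : ((a + m + L + 1 + 2 : ℕ) : ℝ) = 2 * m + L + 2 := by
        push_cast; rw [hma']; ring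
      rw [e1] at h3
      have h4 : t (a + m + L + 1) ≤ 2 * M ^ 3 * (1 / (2 * m + 1 + L) - 1 / (2 * m + 1 + (L + 1))) := by
        have h5 : 1 / (2 * (m:ℝ) + 1 + L) - 1 / (2 * m + 1 + (L + 1)) = 1 / ((2 * m + 1 + L) * (2 * m + 1 + (L + 1))) := by
          field_simp; ring
        rw [h5, mul_one_div, le_div_iff₀ (by positivity)]
        norm_num at h3
        nlinarith
      push_cast
      calc _ ≤ _ := add_le_add ih h4
        _ = _ := by ring
  have B3' := B3 a
  have hB3 : 1 / (2 * (m:ℝ) + 1) - 1 / (2 * m + 1 + a) = (m - 1) / (3 * m * (2 * m + 1)) := by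
    have : (a:ℝ) = m - 1 := by linarith
    rw [this]
    have h3m : (2 * (m:ℝ) + 1 + (m - 1)) = 3 * m := by ring
    rw [h3m]
    field_simp; ring
  rw [hB3] at B3'
  -- tail
  have B4 := (tail_bound t M ht 3 (by norm_num) (H 3) (a + m + a)).2
  have e9 : ((a + m + a + 3 : ℕ).choose (3 - 1) : ℝ) = (3 * m + 1) * (3 * m) / 2 := by
    rw [show 3 - 1 = 2 by norm_num, Nat.cast_choose_two]
    push_cast
    rw [hma']; ring
  rw [e9] at B4
  have e10 : M ^ (3 + 1) * (((3:ℕ):ℝ) / ((((3:ℕ):ℝ) - 1) * ((3 * m + 1) * (3 * m) / 2))) = M * (M ^ 3 / (m * (3 * m + 1))) := by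
    push_cast
    field_simp
    ring
  rw [e10] at B4
  -- combine
  set s := M - m with hs
  have hs0 : 0 ≤ s := by rw [hs]; linarith
  have hs1 : s ≤ 1 := by rw [hs]; linarith
  have hMs : M = m + s := by rw [hs]; ring
  have c2 : M ^ 2 ≤ m ^ 2 + (2 * m + 1) * s := by rw [hMs]; nlinarith
  have c3 : M ^ 3 ≤ m ^ 3 + (3 * m ^ 2 + 3 * m + 1) * s := by
    rw [hMs]
    have : s ^ 2 ≤ s := by nlinarith
    have : s ^ 3 ≤ s := by nlinarith [mul_nonneg hs0 hs0]
    nlinarith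
  have T3 : 2 * M ^ 2 * ((m - 1) / (3 * m * (2 * m + 1))) ≤ (m - 1) / 3 + 2 / 3 * s := by
    rw [mul_div_assoc', div_le_iff₀ (by positivity)]
    have hmm : (0:ℝ) ≤ m - 1 := by linarith
    have h7 : 2 * M ^ 2 * (m - 1) ≤ 2 * (m ^ 2 + (2 * m + 1) * s) * (m - 1) :=
      mul_le_mul_of_nonneg_right (by linarith) hmm
    have key : (((m:ℝ) - 1) / 3 + 2 / 3 * s) * (3 * m * (2 * m + 1)) - 2 * (m ^ 2 + (2 * m + 1) * s) * (m - 1)
        = m * (m - 1) + 2 * s * (2 * m + 1) := by ring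
    have hp : 0 ≤ (m:ℝ) * (m - 1) + 2 * s * (2 * m + 1) := by positivity
    linarith
  have T4 : M ^ 3 / (m * (3 * m + 1)) ≤ m / 3 + 1.18 * s := by
    rw [div_le_iff₀ (by positivity)]
    refine c3.trans ?_
    have key : ((m:ℝ) / 3 + 1.18 * s) * (m * (3 * m + 1)) - (m ^ 3 + (3 * m ^ 2 + 3 * m + 1) * s)
        = m ^ 2 / 3 + s * (0.54 * m * (m - 4) + (0.34 * m - 1)) := by ring
    have h8 : 0 ≤ 0.54 * (m:ℝ) * (m - 4) + (0.34 * m - 1) := by
      have : 0 ≤ 0.54 * (m:ℝ) * (m - 4) := by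
        apply mul_nonneg (by positivity); linarith
      linarith
    have hp : 0 ≤ (m:ℝ) ^ 2 / 3 + s * (0.54 * m * (m - 4) + (0.34 * m - 1)) := by positivity
    linarith
  have T : (m - 1) + M * (7 / 10) + 2 * M ^ 2 * ((m - 1) / (3 * m * (2 * m + 1))) + M ^ 3 / (m * (3 * m + 1)) ≤ 2.718 * (M - 1) := by
    have h9 : M * (7 / 10) = m * (7 / 10) + s * (7 / 10) := by rw [hMs]; ring
    rw [h9]
    have h10 : 2.718 * (M - 1) = 2.718 * m - 2.718 + 2.718 * s := by rw [hMs]; ring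
    rw [h10]
    linarith
  have T' := mul_le_mul_of_nonneg_left T hM0.le
  have e12 : M * (((m:ℝ) - 1) + M * (7 / 10) + 2 * M ^ 2 * ((m - 1) / (3 * m * (2 * m + 1))) + M ^ 3 / (m * (3 * m + 1)))
      = (m - 1) * M + M ^ 2 * (7 / 10) + 2 * M ^ 3 * ((m - 1) / (3 * m * (2 * m + 1))) + M * (M ^ 3 / (m * (3 * m + 1))) := by
    ring
  rw [e12] at T'
  have e13 : M * (2.718 * (M - 1)) = 2.718 * M * (M - 1) := by ring
  rw [e13] at T'
  linarith

end


/-- two dimensional space carrying a weighted norm -/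
def X2 (_c : ℝ) : Type u := ULift.{u} (ℂ × ℂ)

namespace X2
variable {c : ℝ}

noncomputable instance : AddCommGroup (X2.{u} c) := inferInstanceAs (AddCommGroup (ULift.{u} (ℂ × ℂ)))
noncomputable instance : Module ℂ (X2.{u} c) := inferInstanceAs (Module ℂ (ULift.{u} (ℂ × ℂ)))

def fst (v : X2.{u} c) : ℂ := (ULift.down (v : ULift.{u} (ℂ × ℂ))).1
def snd (v : X2.{u} c) : ℂ := (ULift.down (v : ULift.{u} (ℂ × ℂ))).2
def mk (a b : ℂ) : X2.{u} c := (ULift.up (a, b) : ULift.{u} (ℂ × ℂ))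

@[simp] lemma fst_mk (a b : ℂ) : fst (mk a b : X2.{u} c) = a := rfl
@[simp] lemma snd_mk (a b : ℂ) : snd (mk a b : X2.{u} c) = b := rfl
@[simp] lemma fst_add (v w : X2.{u} c) : fst (v + w) = fst v + fst w := rfl
@[simp] lemma snd_add (v w : X2.{u} c) : snd (v + w) = snd v + snd w := rfl
@[simp] lemma fst_smul (a : ℂ) (v : X2.{u} c) : fst (a • v) = a * fst v := rfl
@[simp] lemma snd_smul (a : ℂ) (v : X2.{u} c) : snd (a • v) = a * snd v := rfl
@[simp] lemma fst_zero : fst (0 : X2.{u} c) = 0 := rfl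
@[simp] lemma snd_zero : snd (0 : X2.{u} c) = 0 := rfl

lemma ext' {v w : X2.{u} c} (h1 : fst v = fst w) (h2 : snd v = snd w) : v = w := by
  have : ULift.down (v : ULift.{u} (ℂ × ℂ)) = ULift.down (w : ULift.{u} (ℂ × ℂ)) := Prod.ext h1 h2
  exact ULift.down_injective this

noncomputable def g (s : Set.Icc (0:ℝ) 1) (v : X2.{u} c) : ℝ :=
  Real.exp s * ((1 - s) * ‖fst v‖ + c * ‖snd v‖)

noncomputable instance : Norm (X2.{u} c) := ⟨fun v => ⨆ s : Set.Icc (0:ℝ) 1, g s v⟩

lemma norm_def (v : X2.{u} c) : ‖v‖ = ⨆ s : Set.Icc (0:ℝ) 1, g s v := rfl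

variable [hc : Fact (0 < c)]

lemma g_nonneg (s : Set.Icc (0:ℝ) 1) (v : X2.{u} c) : 0 ≤ g s v := by
  have h1 : 0 ≤ 1 - (s:ℝ) := by linarith [s.2.2]
  have h2 := hc.out.le
  unfold g; positivity

lemma g_bdd (v : X2.{u} c) : BddAbove (Set.range fun s : Set.Icc (0:ℝ) 1 => g s v) := by
  refine ⟨Real.exp 1 * (‖fst v‖ + c * ‖snd v‖), ?_⟩
  rintro _ ⟨s, rfl⟩
  have h2 := hc.out.le
  have h0 : 0 ≤ 1 - (s:ℝ) := by linarith [s.2.2]
  simp only [g]
  apply mul_le_mul (Real.exp_le_exp.2 s.2.2) _ (by positivity) (by positivity)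
  have : (1 - (s:ℝ)) * ‖fst v‖ ≤ 1 * ‖fst v‖ :=
    mul_le_mul_of_nonneg_right (by linarith [s.2.1]) (norm_nonneg _)
  linarith

lemma g_le_norm (s : Set.Icc (0:ℝ) 1) (v : X2.{u} c) : g s v ≤ ‖v‖ := le_ciSup (g_bdd v) s

instance : Nonempty (Set.Icc (0:ℝ) 1) := ⟨⟨0, by simp⟩⟩

omit hc in
lemma norm_le {v : X2.{u} c} {K : ℝ} (h : ∀ s, g s v ≤ K) : ‖v‖ ≤ K := ciSup_le h

lemma core : NormedSpace.Core ℂ (X2.{u} c) where
  norm_nonneg v := le_trans (g_nonneg ⟨0, by simp⟩ v) (g_le_norm _ v)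
  norm_smul a v := by
    rw [norm_def, norm_def, Real.mul_iSup_of_nonneg (norm_nonneg a)]
    congr 1; ext s
    simp only [g, fst_smul, snd_smul, norm_mul]; ring
  norm_triangle v w := by
    apply norm_le
    intro s
    refine le_trans ?_ (add_le_add (g_le_norm s v) (g_le_norm s w))
    have h0 : 0 ≤ 1 - (s:ℝ) := by linarith [s.2.2]
    have h2 := hc.out.le
    simp only [g, fst_add, snd_add]
    have h3 := norm_add_le (fst v) (fst w)
    have h4 := norm_add_le (snd v) (snd w)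
    rw [← mul_add]
    apply mul_le_mul_of_nonneg_left _ (Real.exp_pos _).le
    nlinarith [mul_le_mul_of_nonneg_left h3 h0, mul_le_mul_of_nonneg_left h4 h2]
  norm_eq_zero_iff v := by
    constructor
    · intro h
      have h1 := g_le_norm ⟨0, by simp⟩ v
      rw [h] at h1
      simp only [g, Real.exp_zero, sub_zero, one_mul] at h1
      have h2 := hc.out
      have h3 : 0 ≤ c * ‖snd v‖ := by positivity
      have h5 : ‖fst v‖ = 0 := le_antisymm (by linarith) (norm_nonneg _)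
      have h6 : c * ‖snd v‖ = 0 := le_antisymm (by linarith [norm_nonneg (fst v)]) h3
      have h7 : ‖snd v‖ = 0 := by
        rcases mul_eq_zero.1 h6 with h | h
        · exact absurd h h2.ne'
        · exact h
      exact ext' (by simpa using h5) (by simpa using h7)
    · rintro rfl
      apply le_antisymm
      · apply norm_le; intro s; simp [g]
      · exact le_trans (g_nonneg ⟨0, by simp⟩ _) (g_le_norm _ _)

noncomputable instance : NormedAddCommGroup (X2.{u} c) := NormedAddCommGroup.ofCore core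
noncomputable instance : NormedSpace ℂ (X2.{u} c) := NormedSpace.ofCore core

instance : FiniteDimensional ℂ (X2.{u} c) := by
  have : FiniteDimensional ℂ (ULift.{u} (ℂ × ℂ)) := inferInstance
  exact this

instance : CompleteSpace (X2.{u} c) := FiniteDimensional.complete ℂ _

instance : Nontrivial (X2.{u} c) := ⟨⟨mk 1 0, 0, fun h => by
  have := congrArg fst h
  simp at this⟩⟩

/-- the nilpotent operator (a, b) -> (0, a) -/
noncomputable def Tlin : X2.{u} c →ₗ[ℂ] X2.{u} c where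
  toFun v := mk 0 (fst v)
  map_add' v w := by apply ext' <;> simp
  map_smul' a v := by apply ext' <;> simp

lemma Tlin_bound (v : X2.{u} c) : ‖(Tlin v : X2.{u} c)‖ ≤ (Real.exp 1 * c) * ‖v‖ := by
  apply norm_le
  intro s
  have h1 := g_le_norm ⟨0, by simp⟩ v
  simp only [g, Real.exp_zero, sub_zero, one_mul] at h1
  have h2 := hc.out
  have h3 : ‖fst v‖ ≤ ‖v‖ := by
    have : 0 ≤ c * ‖snd v‖ := by positivity
    linarith
  simp only [g, Tlin, LinearMap.coe_mk, AddHom.coe_mk, fst_mk, snd_mk, norm_zero, mul_zero, zero_add]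
  calc Real.exp s * (c * ‖fst v‖) ≤ Real.exp 1 * (c * ‖v‖) := by
        apply mul_le_mul (Real.exp_le_exp.2 s.2.2) _ (by positivity) (by positivity)
        apply mul_le_mul_of_nonneg_left h3 h2.le
    _ = _ := by ring

noncomputable def T : X2.{u} c →L[ℂ] X2.{u} c := Tlin.mkContinuous (Real.exp 1 * c) Tlin_bound

lemma T_apply (v : X2.{u} c) : T v = mk 0 (fst v) := rfl

lemma T_sq : (T : X2.{u} c →L[ℂ] X2.{u} c) * T = 0 := by
  ext v
  simp only [mul_apply_eq_comp, T_apply, zero_apply]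
  apply ext' <;> simp

lemma T_norm : Real.exp 1 * c ≤ ‖(T : X2.{u} c →L[ℂ] X2.{u} c)‖ := by
  have h2 := hc.out
  have h1 := (T : X2.{u} c →L[ℂ] X2.{u} c).le_opNorm (mk 1 0)
  have h3 : ‖(mk 1 0 : X2.{u} c)‖ ≤ 1 := by
    apply norm_le
    intro s
    simp only [g, fst_mk, snd_mk, norm_one, norm_zero, mul_one, mul_zero, add_zero]
    have := Real.add_one_le_exp (-(s:ℝ))
    calc Real.exp s * (1 - s) ≤ Real.exp s * Real.exp (-s) := by
          apply mul_le_mul_of_nonneg_left _ (Real.exp_pos _).le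
          linarith
      _ = 1 := by rw [← Real.exp_add]; simp
  have h4 : Real.exp 1 * c ≤ ‖(T (mk 1 0 : X2.{u} c))‖ := by
    refine le_trans ?_ (g_le_norm ⟨1, by simp⟩ _)
    simp [g, T_apply]
  calc _ ≤ _ := h4
    _ ≤ _ := h1
    _ ≤ ‖(T : X2.{u} c →L[ℂ] X2.{u} c)‖ * 1 := by
      apply mul_le_mul_of_nonneg_left h3 (norm_nonneg _)
    _ = _ := mul_one _

lemma one_add_bound (w : ℂ) (hw : ‖w‖ ≤ 1) :
    ‖(1 + w • T : X2.{u} c →L[ℂ] X2.{u} c)‖ ≤ Real.exp c := by
  apply ContinuousLinearMap.opNorm_le_bound _ (Real.exp_pos _).le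
  intro v
  apply norm_le
  intro s
  have h2 := hc.out
  have hs0 := s.2.1
  have hs1 := s.2.2
  have e1 : (1 + w • T : X2.{u} c →L[ℂ] X2.{u} c) v = v + w • mk 0 (fst v) := by
    simp [T_apply]
  rw [e1]
  simp only [g, fst_add, snd_add, fst_smul, snd_smul, fst_mk, snd_mk, mul_zero, add_zero]
  have h3 : ‖snd v + w * fst v‖ ≤ ‖snd v‖ + ‖fst v‖ := by
    refine (norm_add_le _ _).trans ?_
    rw [norm_mul]
    have := mul_le_mul_of_nonneg_right hw (norm_nonneg (fst v))
    linarith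
  have h4 : Real.exp s * ((1 - s) * ‖fst v‖ + c * ‖snd v + w * fst v‖) ≤
      Real.exp s * ((1 - s + c) * ‖fst v‖ + c * ‖snd v‖) := by
    apply mul_le_mul_of_nonneg_left _ (Real.exp_pos _).le
    nlinarith [mul_le_mul_of_nonneg_left h3 h2.le]
  refine h4.trans ?_
  rcases le_total c s with hcs | hcs
  · have h5 := g_le_norm ⟨(s:ℝ) - c, ⟨by linarith, by linarith⟩⟩ v
    simp only [g] at h5
    have h6 := mul_le_mul_of_nonneg_left h5 (Real.exp_pos c).le
    rw [← mul_assoc, ← Real.exp_add] at h6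
    have e2 : c + ((s:ℝ) - c) = s := by ring
    have e3 : (1 - ((s:ℝ) - c)) = 1 - s + c := by ring
    rw [e2, e3] at h6
    exact h6
  · have h5 := g_le_norm ⟨0, by simp⟩ v
    simp only [g, Real.exp_zero, sub_zero, one_mul] at h5
    have h6 := mul_le_mul_of_nonneg_left h5 (Real.exp_pos c).le
    refine le_trans ?_ h6
    have h7 : Real.exp s * (1 - s + c) ≤ Real.exp c := by
      have := Real.add_one_le_exp (c - s)
      calc Real.exp s * (1 - s + c) ≤ Real.exp s * Real.exp (c - s) := by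
            apply mul_le_mul_of_nonneg_left _ (Real.exp_pos _).le
            linarith
        _ = Real.exp c := by rw [← Real.exp_add]; congr 1; ring
    have h8 : Real.exp s ≤ Real.exp c := Real.exp_le_exp.2 hcs
    have h9 := mul_le_mul_of_nonneg_right h7 (norm_nonneg (fst v))
    have h10 : Real.exp s * (c * ‖snd v‖) ≤ Real.exp c * (c * ‖snd v‖) :=
      mul_le_mul_of_nonneg_right h8 (by positivity)
    nlinarith

lemma inv_formula (z : ℂ) (hz : z ≠ 0) :
    (algebraMap ℂ (X2.{u} c →L[ℂ] X2.{u} c) z - T) * (z⁻¹ • (1 + z⁻¹ • T)) = 1 ∧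
    (z⁻¹ • (1 + z⁻¹ • T)) * (algebraMap ℂ (X2.{u} c →L[ℂ] X2.{u} c) z - T) = 1 := by
  have hT := T_sq (c := c)
  rw [Algebra.algebraMap_eq_smul_one]
  constructor
  · rw [mul_smul_comm, sub_mul, mul_add, mul_add, mul_one, mul_one, mul_smul_comm, mul_smul_comm, hT,
      smul_mul_assoc, one_mul, smul_smul]
    rw [inv_mul_cancel₀ hz, smul_zero, one_smul, add_zero, add_sub_cancel_right, smul_smul,
      inv_mul_cancel₀ hz, one_smul]
  · rw [smul_mul_assoc, mul_sub, add_mul, add_mul, one_mul, one_mul, mul_smul_comm, mul_one,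
      smul_mul_assoc, hT, smul_smul, mul_inv_cancel₀ hz, smul_zero, one_smul, add_zero,
      add_sub_cancel_right, smul_smul, inv_mul_cancel₀ hz, one_smul]

lemma resolvent_eq (z : ℂ) (hz : z ≠ 0) :
    resolvent (T : X2.{u} c →L[ℂ] X2.{u} c) z = z⁻¹ • (1 + z⁻¹ • T) := by
  obtain ⟨h1, h2⟩ := inv_formula (c := c) z hz
  exact Ring.inverse_unit ⟨_, _, h1, h2⟩

lemma spectrum_sub : spectrum ℂ (T : X2.{u} c →L[ℂ] X2.{u} c) ⊆ Metric.ball (0:ℂ) 1 := by
  intro z hz
  by_cases h0 : z = 0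
  · subst h0; simp
  · exfalso
    obtain ⟨h1, h2⟩ := inv_formula (c := c) z h0
    exact hz ⟨⟨_, _, h1, h2⟩, rfl⟩

lemma resolvent_bound (z : ℂ) (hz : 1 ≤ ‖z‖) :
    ‖resolvent (T : X2.{u} c →L[ℂ] X2.{u} c) z‖ ≤ Real.exp c := by
  have h0 : z ≠ 0 := by
    rintro rfl; simp at hz; linarith
  have hinv : ‖z⁻¹‖ ≤ 1 := by
    rw [norm_inv]; exact inv_le_one_of_one_le₀ hz
  rw [resolvent_eq z h0, norm_smul]
  calc ‖z⁻¹‖ * ‖(1 + z⁻¹ • T : X2.{u} c →L[ℂ] X2.{u} c)‖ ≤ 1 * Real.exp c :=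
        mul_le_mul hinv (one_add_bound _ hinv) (norm_nonneg _) (by norm_num)
    _ = _ := one_mul _

end X2


/-- `PowerSumBound C` says: for every nonzero complex Banach space `X`, every bounded operator `T`
on `X` with spectrum in the open unit disc and every real `M` with `‖(zI - T)⁻¹‖ ≤ M` for all
`|z| ≥ 1`, the series `∑_{j ≥ 1} ‖T^j‖` converges and is at most `C M (M - 1)`. -/
def PowerSumBound (C : ℝ) : Prop :=
  ∀ (X : Type u) [NormedAddCommGroup X] [NormedSpace ℂ X] [CompleteSpace X] [Nontrivial X]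
    (T : X →L[ℂ] X) (M : ℝ),
    spectrum ℂ T ⊆ Metric.ball (0 : ℂ) 1 →
    (∀ z : ℂ, 1 ≤ ‖z‖ → ‖resolvent T z‖ ≤ M) →
    Summable (fun j : ℕ => ‖T ^ (j + 1)‖) ∧
      ∑' j : ℕ, ‖T ^ (j + 1)‖ ≤ C * M * (M - 1)

lemma numeric (t : ℕ → ℝ) (M : ℝ) (hM : 1 ≤ M) (ht : ∀ j, 0 ≤ t j)
    (H : ∀ k j, ((j + k).choose k : ℝ) * t j ≤ M ^ (k + 1)) :
    Summable (fun i => t (i + 1)) ∧ ∑' i, t (i + 1) ≤ Real.exp 1 * M * (M - 1) := by
  have hs := (tail_bound t M ht 2 (le_refl 2) (H 2) 0).1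
  simp only [add_zero] at hs
  refine ⟨hs, ?_⟩
  have hE : 2.718 * M * (M - 1) ≤ Real.exp 1 * M * (M - 1) := by
    have := Real.exp_one_gt_d9
    have h1 : 0 ≤ M * (M - 1) := mul_nonneg (by linarith) (by linarith)
    nlinarith
  rcases eq_or_lt_of_le hM with h | h
  · have h0 : ∀ j, t (j + 1) = 0 := by
      intro j
      by_contra hne
      have hpos : 0 < t (j + 1) := lt_of_le_of_ne (ht _) (Ne.symm hne)
      obtain ⟨k, hk⟩ := exists_nat_gt (1 / t (j + 1))
      have h1 := H k (j + 1)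
      rw [← h, one_pow] at h1
      have h2 : k + 1 ≤ (j + 1 + k).choose k := by
        calc k + 1 = (1 + k).choose k := by rw [add_comm 1 k]; simp
          _ ≤ (j + 1 + k).choose k := Nat.choose_le_choose k (by omega)
      have h3 : (k : ℝ) + 1 ≤ ((j + 1 + k).choose k : ℝ) := by exact_mod_cast h2
      rw [div_lt_iff₀ hpos] at hk
      nlinarith
    simp [h0, ← h]
  · rcases le_total M (7/6) with h7 | h7
    · exact small_range t M ht H h h7
    refine le_trans ?_ hE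
    rcases le_total M (6/5) with h8 | h8
    · exact int1 t M ht H h7 h8
    rcases le_total M (5/4) with h9 | h9
    · exact int2 t M ht H h8 h9
    rcases le_total M (4/3) with h10 | h10
    · exact int3 t M ht H h9 h10
    rcases le_total M (3/2) with h11 | h11
    · exact int4 t M ht H h10 h11
    rcases le_total M (7/4) with h12 | h12
    · exact int5 t M ht H h11 h12
    rcases le_total M 2 with h13 | h13
    · exact int6 t M ht H h12 h13
    rcases le_total M 3 with h14 | h14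
    · exact int7 t M ht H h13 h14
    rcases le_total M 4 with h15 | h15
    · exact int8 t M ht H h14 h15
    exact large_range t M ht H h15

theorem upper : PowerSumBound.{u} (Real.exp 1) := by
  intro X _ _ _ _ T M hs hM
  have H : ∀ k j : ℕ, ((j + k).choose k : ℝ) * ‖T ^ j‖ ≤ M ^ (k + 1) := by
    intro k j
    exact pow_bound T M hs (fun z hz => hM z hz.ge) k j
  have hM1 : 1 ≤ M := by
    have := H 0 0
    simpa using this
  exact numeric (fun j => ‖T ^ j‖) M hM1 (fun j => norm_nonneg _) H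

theorem lower (C : ℝ) (hC : 0 < C) (h : PowerSumBound.{u} C) : Real.exp 1 ≤ C := by
  by_contra hlt
  push Not at hlt
  have hlog : Real.log C < 1 := by
    rw [Real.log_lt_iff_lt_exp hC]; exact hlt
  set c := (1 - Real.log C) / 4 with hc
  have hc0 : 0 < c := by rw [hc]; linarith
  have : Fact (0 < c) := ⟨hc0⟩
  obtain ⟨hsum, hle⟩ := h (X2.{u} c) (X2.T (c := c)) (Real.exp c) X2.spectrum_sub
    (fun z hz => X2.resolvent_bound z hz)
  have h1 : ‖(X2.T : X2.{u} c →L[ℂ] X2.{u} c)‖ ≤ ∑' j : ℕ, ‖(X2.T : X2.{u} c →L[ℂ] X2.{u} c) ^ (j + 1)‖ := by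
    have := hsum.le_tsum 0 (fun j _ => norm_nonneg _)
    simpa using this
  have h2 : Real.exp 1 * c ≤ C * Real.exp c * (Real.exp c - 1) := X2.T_norm.trans (h1.trans hle)
  have h3 : Real.exp c - 1 ≤ c * Real.exp c := by
    have := Real.add_one_le_exp (-c)
    have h4 : Real.exp c * (1 - c) ≤ 1 := by
      calc Real.exp c * (1 - c) ≤ Real.exp c * Real.exp (-c) := by
            apply mul_le_mul_of_nonneg_left _ (Real.exp_pos _).le
            linarith
        _ = 1 := by rw [← Real.exp_add]; simp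
    linarith
  have h5 : Real.exp 1 * c ≤ (C * Real.exp (2 * c)) * c := by
    calc Real.exp 1 * c ≤ C * Real.exp c * (Real.exp c - 1) := h2
      _ ≤ C * Real.exp c * (c * Real.exp c) := by
        apply mul_le_mul_of_nonneg_left h3 (by positivity)
      _ = (C * Real.exp (2 * c)) * c := by
        rw [two_mul, Real.exp_add]; ring
  have h6 : Real.exp 1 ≤ C * Real.exp (2 * c) := le_of_mul_le_mul_right h5 hc0
  have h7 : Real.exp 1 ≤ Real.exp (Real.log C + 2 * c) := by
    rw [Real.exp_add, Real.exp_log hC]; exact h6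
  have h8 := Real.exp_le_exp.1 h7
  rw [hc] at h8
  linarith

/-- The best constant is `e`, and it is attained. -/
theorem result : IsLeast {C : ℝ | 0 < C ∧ PowerSumBound.{u} C} (Real.exp 1) :=
  ⟨⟨Real.exp_pos 1, upper⟩, fun C hC => lower C hC.1 hC.2⟩

end Pool.Agent.Results.MP_e0d2b2_an.Main
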